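import Pool.Agent.H815.QC.Stm

set_option autoImplicit false

namespace Pool.Agent.H342.QC

open Pool.Agent.H815.QC

section

variable {K Q J : Type} [Group K] [Group Q] (ι : K →* Q) (Qf : J → Subgroup Q)

theorem mem_pf {j : J} {y : Q} {l : K} : l ∈ pf ι Qf j y ↔ y⁻¹ * ι l * y ∈ Qf j := by
  unfold pf
  rw [Subgroup.mem_comap, Subgroup.mem_map]
  constructor
  · rintro ⟨q, hq, h⟩
    have h' : y * q * y⁻¹ = ι l := h
    rw [← h']
    have : y⁻¹ * (y * q * y⁻¹) * y = q := by group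
    rw [this]; exact hq
  · intro h
    refine ⟨_, h, ?_⟩
    show y * (y⁻¹ * ι l * y) * y⁻¹ = ι l
    group

theorem pf_map (j : J) (y : Q) (k : K) :
    (pf ι Qf j y).map (MulAut.conj k).toMonoidHom = pf ι Qf j (ι k * y) := by
  ext l
  rw [mem_pf, Subgroup.mem_map]
  constructor
  · rintro ⟨m, hm, h⟩
    have h' : k * m * k⁻¹ = l := h
    rw [mem_pf] at hm
    rw [← h', map_mul, map_mul, map_inv]
    have : (ι k * y)⁻¹ * (ι k * ι m * (ι k)⁻¹) * (ι k * y) = y⁻¹ * ι m * y := by group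
    rw [this]; exact hm
  · intro h
    refine ⟨k⁻¹ * l * k, ?_, ?_⟩
    · rw [mem_pf, map_mul, map_mul, map_inv]
      have : (ι k * y)⁻¹ * ι l * (ι k * y) = y⁻¹ * ((ι k)⁻¹ * ι l * ι k) * y := by group
      rw [this] at h; exact h
    · show k * (k⁻¹ * l * k) * k⁻¹ = l
      group

theorem pf_mul (j : J) (y q : Q) (hq : q ∈ Qf j) : pf ι Qf j (y * q) = pf ι Qf j y := by
  ext l
  rw [mem_pf, mem_pf]
  have : (y * q)⁻¹ * ι l * (y * q) = q⁻¹ * (y⁻¹ * ι l * y) * q := by group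
  rw [this]
  constructor
  · intro h
    have h2 := (Qf j).mul_mem ((Qf j).mul_mem hq h) ((Qf j).inv_mem hq)
    have : q * (q⁻¹ * (y⁻¹ * ι l * y) * q) * q⁻¹ = y⁻¹ * ι l * y := by group
    rw [this] at h2; exact h2
  · intro h
    exact (Qf j).mul_mem ((Qf j).mul_mem ((Qf j).inv_mem hq) h) hq

/-- the orbit of `pf j y` -/
def Ob (j : J) (y : Q) : Set (Subgroup K) := {L' | ∃ k : K, L' = pf ι Qf j (ι k * y)}

theorem Ob_eq (j : J) (y : Q) :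
    {L' | ∃ k : K, L' = (pf ι Qf j y).map (MulAut.conj k).toMonoidHom} = Ob ι Qf j y := by
  ext L
  constructor
  · rintro ⟨k, h⟩; exact ⟨k, by rw [h, pf_map]⟩
  · rintro ⟨k, h⟩; exact ⟨k, by rw [h, pf_map]⟩

theorem orb_eq : orb {L | ∃ j y, L = pf ι Qf j y} = {O | ∃ j y, O = Ob ι Qf j y} := by
  ext O
  constructor
  · rintro ⟨L, ⟨j, y, rfl⟩, rfl⟩
    exact ⟨j, y, Ob_eq ι Qf j y⟩
  · rintro ⟨j, y, rfl⟩
    exact ⟨_, ⟨j, y, rfl⟩, (Ob_eq ι Qf j y).symm⟩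

theorem Ob_mul (j : J) (y : Q) (k : K) (q : Q) (hq : q ∈ Qf j) :
    Ob ι Qf j (ι k * y * q) = Ob ι Qf j y := by
  ext L
  constructor
  · rintro ⟨m, h⟩
    refine ⟨m * k, ?_⟩
    rw [h, ← mul_assoc, ← mul_assoc, pf_mul ι Qf j _ q hq, map_mul]
  · rintro ⟨m, h⟩
    refine ⟨m * k⁻¹, ?_⟩
    rw [h, ← mul_assoc, ← mul_assoc, pf_mul ι Qf j _ q hq, map_mul, map_inv]
    congr 1
    group

theorem Ob_inj (hinj : ∀ j y j' y', pf ι Qf j y = pf ι Qf j' y' → j = j' ∧ y⁻¹ * y' ∈ Qf j)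
    {j j' : J} {y y' : Q} (h : Ob ι Qf j y = Ob ι Qf j' y') :
    j = j' ∧ ∃ k : K, y'⁻¹ * (ι k * y) ∈ Qf j' := by
  have h1 : pf ι Qf j' y' ∈ Ob ι Qf j' y' := ⟨1, by rw [map_one, one_mul]⟩
  rw [← h] at h1
  obtain ⟨k, hk⟩ := h1
  obtain ⟨h2, h3⟩ := hinj _ _ _ _ hk
  exact ⟨h2.symm, k, h3⟩

theorem vl_Ob (β : Subgroup K → ℤ)
    (hβ : ∀ (k : K) (L : Subgroup K), β (L.map (MulAut.conj k).toMonoidHom) = β L) (j : J) (y : Q) :
    vl β (Ob ι Qf j y) = β (pf ι Qf j y) := by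
  have hne : (Ob ι Qf j y).Nonempty := ⟨pf ι Qf j y, 1, by rw [map_one, one_mul]⟩
  unfold vl
  rw [dif_pos hne]
  obtain ⟨k, hk⟩ := hne.some_mem
  rw [hk, ← pf_map, hβ]

theorem stab_index (K' R : Subgroup Q) (y : Q) :
    (MulAction.orbit R ((y⁻¹ : Q) : Q ⧸ K')).ncard = K'.relIndex (R.map (MulAut.conj y).toMonoidHom) := by
  rw [← MulAction.index_stabilizer]
  have h1 : MulAction.stabilizer R ((y⁻¹ : Q) : Q ⧸ K') =
      (K'.comap (MulAut.conj y).toMonoidHom).subgroupOf R := by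
    ext r
    rw [MulAction.mem_stabilizer_iff, Subgroup.mem_subgroupOf, Subgroup.mem_comap]
    have e : r • ((y⁻¹ : Q) : Q ⧸ K') = (((r : Q) * y⁻¹ : Q) : Q ⧸ K') := rfl
    rw [e, eq_comm, QuotientGroup.eq, inv_inv, ← mul_assoc]
    rfl
  rw [h1]
  have h2 := Subgroup.relIndex_comap K' (MulAut.conj y).toMonoidHom R
  exact h2

end

theorem D5_proof : Pool.Agent.H815.QC.S_D5 := by
  intro K Q J _ _ _ ι Qf β χ hι hidx hβ hχ hinj
  classical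
  have hfi : ι.range.FiniteIndex := ⟨hidx⟩
  have : Finite (Q ⧸ ι.range) := Subgroup.finite_quotient_of_finiteIndex
  let rp : (Σ j : J, MulAction.orbitRel.Quotient (Qf j) (Q ⧸ ι.range)) → Q := fun p => (p.2.out.out : Q)⁻¹
  let F : (Σ j : J, MulAction.orbitRel.Quotient (Qf j) (Q ⧸ ι.range)) → Set (Subgroup K) :=
    fun p => Ob ι Qf p.1 (rp p)
  have hrp : ∀ p, (Quotient.mk'' (((rp p)⁻¹ : Q) : Q ⧸ ι.range) :
      MulAction.orbitRel.Quotient (Qf p.1) (Q ⧸ ι.range)) = p.2 := by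
    intro p
    have e : (((rp p)⁻¹ : Q) : Q ⧸ ι.range) = p.2.out := by
      show ((((p.2.out.out : Q)⁻¹)⁻¹ : Q) : Q ⧸ ι.range) = p.2.out
      rw [inv_inv]
      exact QuotientGroup.out_eq' _
    rw [e]
    exact Quotient.out_eq' _
  have hFinj : Function.Injective F := by
    rintro ⟨j, ω⟩ ⟨j', ω'⟩ h
    obtain ⟨h1, k, hk⟩ := Ob_inj ι Qf hinj h
    subst h1
    have e1 := hrp ⟨j, ω⟩
    have e2 := hrp ⟨j, ω'⟩
    have : ω = ω' := by
      have e1' : (Quotient.mk'' (((rp ⟨j, ω⟩)⁻¹ : Q) : Q ⧸ ι.range) :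
        MulAction.orbitRel.Quotient (Qf j) (Q ⧸ ι.range)) = ω := e1
      have e2' : (Quotient.mk'' (((rp ⟨j, ω'⟩)⁻¹ : Q) : Q ⧸ ι.range) :
        MulAction.orbitRel.Quotient (Qf j) (Q ⧸ ι.range)) = ω' := e2
      refine e1'.symm.trans (Eq.trans ?_ e2')
      apply Quotient.sound'
      show MulAction.orbitRel (Qf j) (Q ⧸ ι.range) _ _
      rw [MulAction.orbitRel_apply]
      refine ⟨⟨_, (Qf j).inv_mem hk⟩, ?_⟩
      show (((rp ⟨j, ω'⟩)⁻¹ * (ι k * rp ⟨j, ω⟩))⁻¹ * (rp ⟨j, ω'⟩)⁻¹ : Q) = (((rp ⟨j, ω⟩)⁻¹ : Q) : Q ⧸ ι.range)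
      rw [QuotientGroup.eq]
      refine ⟨k, ?_⟩
      group
    rw [this]
  have hrange : orb {L | ∃ j y, L = pf ι Qf j y} = Set.range F := by
    rw [orb_eq]
    ext O
    constructor
    · rintro ⟨j, y, rfl⟩
      refine ⟨⟨j, Quotient.mk'' ((y⁻¹ : Q) : Q ⧸ ι.range)⟩, ?_⟩
      set p : (Σ j : J, MulAction.orbitRel.Quotient (Qf j) (Q ⧸ ι.range)) :=
        ⟨j, Quotient.mk'' ((y⁻¹ : Q) : Q ⧸ ι.range)⟩ with hp
      have h1 := hrp p
      have h2 := Quotient.exact' h1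
      have h3 : MulAction.orbitRel (Qf j) (Q ⧸ ι.range) (((rp p)⁻¹ : Q) : Q ⧸ ι.range)
        ((y⁻¹ : Q) : Q ⧸ ι.range) := h2
      rw [MulAction.orbitRel_apply] at h3
      obtain ⟨q, hq⟩ := h3
      have h4 : (((q : Q) * y⁻¹ : Q) : Q ⧸ ι.range) = (((rp p)⁻¹ : Q) : Q ⧸ ι.range) := hq
      rw [QuotientGroup.eq] at h4
      obtain ⟨k, hk⟩ := h4
      have h5 : rp p = ι k⁻¹ * y * (q : Q)⁻¹ := by
        rw [map_inv, hk]; group
      show Ob ι Qf j (rp p) = _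
      rw [h5]
      exact Ob_mul ι Qf j y k⁻¹ _ ((Qf j).inv_mem q.2)
    · rintro ⟨p, rfl⟩
      exact ⟨p.1, rp p, rfl⟩
  have : ∀ j : J, Finite (MulAction.orbitRel.Quotient (Qf j) (Q ⧸ ι.range)) := fun j => Quotient.finite _
  letI : ∀ j : J, Fintype (MulAction.orbitRel.Quotient (Qf j) (Q ⧸ ι.range)) := fun j => Fintype.ofFinite _
  have hval : ∀ p, vl β (F p) = χ p.1 * ((MulAction.orbitRel.Quotient.orbit p.2).ncard : ℤ) := by
    intro p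
    show vl β (Ob ι Qf p.1 (rp p)) = _
    rw [vl_Ob ι Qf β hβ, hχ, ← stab_index]
    have e : MulAction.orbitRel.Quotient.orbit p.2 =
        MulAction.orbit (Qf p.1) (((rp p)⁻¹ : Q) : Q ⧸ ι.range) := by
      conv_lhs => rw [← hrp p]
      exact MulAction.orbitRel.Quotient.orbit_mk _
    rw [e]
  rw [hrange, finsum_mem_range hFinj, finsum_eq_sum_of_fintype]
  simp_rw [hval]
  rw [Fintype.sum_sigma, Finset.sum_mul]
  refine Finset.sum_congr rfl fun j _ => ?_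
  show ∑ y : MulAction.orbitRel.Quotient (Qf j) (Q ⧸ ι.range), χ j * ((MulAction.orbitRel.Quotient.orbit y).ncard : ℤ) = _
  rw [← Finset.mul_sum]
  congr 1
  have h1 := Nat.card_congr (MulAction.selfEquivSigmaOrbits' (Qf j) (Q ⧸ ι.range))
  rw [Nat.card_sigma] at h1
  have h2 : ι.range.index = Nat.card (Q ⧸ ι.range) := rfl
  rw [h2, h1]
  push_cast
  refine Finset.sum_congr rfl fun ω _ => ?_
  rw [Nat.card_coe_set_eq]

end Pool.Agent.H342.QC
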